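import Mathlib
import Pool.Agent.H19.TChar

set_option autoImplicit false

namespace Pool.Agent.Results.MP_67c2f3_gt.Counter
open Filter Topology

/-- `s_v(Y)`: the points on which the characters `v n` tend to `0` -/
def sv {Y : Type} [AddCommGroup Y] [TopologicalSpace Y] (v : ℕ → Y →ₜ+ UnitAddCircle) : Set Y :=
  {y | Tendsto (fun n => v n y) atTop (𝓝 0)}

/-- a T-sequence: it tends to `0` in some Hausdorff group topology -/
def IsTSeq {G : Type} [AddCommGroup G] (v : ℕ → G) : Prop :=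
  ∃ τ : TopologicalSpace G, @IsTopologicalAddGroup G τ _ ∧ @T2Space G τ ∧
    Tendsto v atTop (@nhds G τ 0)

/-- T-characterized subgroups -/
def ChT {Y : Type} [AddCommGroup Y] [TopologicalSpace Y] (H : AddSubgroup Y) : Prop :=
  ∃ v : ℕ → Y →ₜ+ UnitAddCircle, IsTSeq v ∧ (H : Set Y) = sv v

/-- autocharacterized groups -/
def Auto (Y : Type) [AddCommGroup Y] [TopologicalSpace Y] : Prop :=
  ∃ u : ℕ → Y →ₜ+ UnitAddCircle, (¬ ∀ᶠ n in atTop, u n = 0) ∧ sv u = Set.univ

/-- topological direct summands -/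
def Summand {Y : Type} [AddCommGroup Y] [TopologicalSpace Y] (H : AddSubgroup Y) : Prop :=
  ∃ Z : AddSubgroup Y, IsHomeomorph fun p : H × Z => (p.1 : Y) + (p.2 : Y)

open Pool.Agent.H19.TChar

theorem result : ∃ (Y : Type) (_ : AddCommGroup Y) (_ : TopologicalSpace Y)
    (_ : IsTopologicalAddGroup Y) (H : AddSubgroup Y), T2Space Y ∧ IsOpen (H : Set Y) ∧
      H.FiniteIndex ∧ Auto H ∧ Summand H ∧ ¬ ChT H := by
  refine ⟨X, inferInstance, inferInstance, inferInstance, p1.ker, inferInstance,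
    isOpen_discrete _, inferInstance, ⟨fun n => res _ (c 0 n), fun h => ?_, ?_⟩, ⟨p2.ker, ?_⟩, ?_⟩
  · obtain ⟨n, hn⟩ := h.exists
    obtain ⟨i, hi⟩ := (c_e 0 n).exists
    have hn' : res p1.ker (c 0 n) = 0 := hn
    have he : e i ∈ p1.ker := show p1 (e i) = 0 from rfl
    have : c 0 n (e i) = 0 := by
      change res p1.ker (c 0 n) ⟨e i, he⟩ = 0
      rw [hn']; rfl
    rw [hi] at this
    exact absurd (ZMod.toAddCircle_injective 4 (this.trans (map_zero _).symm))
      (show ¬ (2 : ZMod 4) = 0 by decide)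
  · exact Set.eq_univ_of_forall fun y => (c_tend 0 y).2 (zero_smul _ _)
  · refine ⟨continuous_of_discreteTopology, fun U _ => isOpen_discrete _, ?_, fun y => ?_⟩
    · rintro ⟨⟨x, hx⟩, ⟨z, hz⟩⟩ ⟨⟨x', hx'⟩, ⟨z', hz'⟩⟩ h
      have h1 := congrArg p1 h
      have h2 := congrArg p2 h
      rw [AddMonoidHom.mem_ker] at hx hz hx' hz'
      simp only [map_add, hx, hx', hz, hz', zero_add, add_zero] at h1 h2
      exact Prod.ext (Subtype.ext (Prod.ext (hx.trans hx'.symm) h2))
        (Subtype.ext (Prod.ext h1 (hz.trans hz'.symm)))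
    · exact ⟨(⟨((0 : ZMod 4), y.2), show (0 : ZMod 4) = 0 from rfl⟩,
        ⟨(y.1, (0 : ℕ →₀ ZMod 2)), show (0 : ℕ →₀ ZMod 2) = 0 from rfl⟩),
        Prod.ext (zero_add y.1) (add_zero y.2)⟩
  · rintro ⟨w, ⟨τ, h1, h2, h3⟩, h⟩
    have : (2 • a) ∈ sv w := neg a four_a two_smul_X w τ h1 h2 h3
    rw [← h] at this
    exact absurd ((p1_a 2).symm.trans this) (by decide)

end Pool.Agent.Results.MP_67c2f3_gt.Counter
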